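import Pool.Agent.W541.DL.Stm

/-! DL-SEP: the statistics separate the laws. -/

namespace Pool.Agent.W605.DL.SEP

open MeasureTheory ProbabilityTheory Filter Topology Pool.Agent.W541.DL

theorem val_meas {Ω : Type} [MeasurableSpace Ω] {P : Measure Ω} {L : Ω → C(R4, ℝ)}
    (hL : IsDirectedLandscape P L) (x s y t : ℝ) : Measurable (fun ω => val (L ω) x s y t) := by
  unfold val
  by_cases h : s < t
  · simp only [dif_pos h]
    exact hL.meas _
  · simp only [dif_neg h]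
    exact measurable_const

theorem cl_cont (A : ℝ) : Continuous (cl A) := by
  unfold cl
  exact continuous_const.max (continuous_const.min continuous_id)

theorem cl_abs (A v : ℝ) (hA : 0 ≤ A) : |cl A v| ≤ A := by
  unfold cl
  rw [abs_le]
  exact ⟨le_max_left _ _, max_le (by linarith) (min_le_left _ _)⟩

theorem stat_meas {Ω : Type} [MeasurableSpace Ω] {P : Measure Ω} {L : Ω → C(R4, ℝ)}
    (hL : IsDirectedLandscape P L) (A x0 t0 ρ : ℝ) (m : ℕ) :
    Measurable (fun ω => stat (L ω) A x0 t0 ρ m) := by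
  unfold stat
  refine Finset.measurable_sum _ fun j _ => Finset.measurable_sum _ fun i _ => ?_
  refine (cl_cont A).measurable.comp ?_
  refine Measurable.const_mul ?_ _
  unfold cellv
  exact val_meas hL _ _ _ _

theorem stat_bound {f : R4 → ℝ} (A x0 t0 ρ : ℝ) (m : ℕ) (hA : 0 ≤ A) :
    |stat f A x0 t0 ρ m| ≤ nJ ρ m * (nI ρ m * A) := by
  unfold stat
  refine (Finset.abs_sum_le_sum_abs _ _).trans ?_
  have h1 : ∀ j ∈ Finset.range (nJ ρ m), |∑ i ∈ Finset.range (nI ρ m),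
      cl A ((m : ℝ) ^ 3 * cellv f x0 t0 m i j)| ≤ nI ρ m * A := by
    intro j _
    refine (Finset.abs_sum_le_sum_abs _ _).trans ?_
    refine (Finset.sum_le_sum fun i _ => cl_abs A _ hA).trans ?_
    rw [Finset.sum_const, Finset.card_range, nsmul_eq_mul]
  refine (Finset.sum_le_sum h1).trans ?_
  rw [Finset.sum_const, Finset.card_range, nsmul_eq_mul]

theorem floor_half (x : ℝ) (hx : 2 ≤ x) : x / 2 ≤ (⌊x⌋₊ : ℝ) := by
  have := Nat.lt_floor_add_one x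
  linarith

theorem main (hV : S_VAR) (hP : S_PATHW) (hB : S_BADC) (hN : S_NBAD) : S_SEP := by
  intro Ω _ P L hL h H c a b x0 t0 ρ hh hH hH0 hc hax hxb hρ hneg η hη
  have := hL.prob
  obtain ⟨κ, hκ⟩ : ∃ κ : ℝ, κ = c / (2 * (H + c)) := ⟨_, rfl⟩
  have hHc : 0 < H + c := by linarith
  have hκ0 : 0 < κ := by rw [hκ]; positivity
  have hκ2 : (H + c) * κ = c / 2 := by rw [hκ]; field_simp
  obtain ⟨A, hA, hBad⟩ := hB Ω P L hL H c a b x0 t0 ρ (η * κ / 4) hH0 hc hax hxb hρ (by positivity)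
  have hA0 : 0 < A := by linarith
  obtain ⟨C, hC, hVar⟩ := hV Ω P L hL A hA0 x0 t0 ρ hρ
  obtain ⟨c1, hc1⟩ : ∃ c1 : ℝ, c1 = c * ρ ^ 2 / 24 := ⟨_, rfl⟩
  have hc10 : 0 < c1 := by rw [hc1]; positivity
  have hlarge : ∀ᶠ m : ℕ in atTop,
      max (max c (6 / ρ)) (64 * C / (η * c1 ^ 2)) ≤ (m : ℝ) :=
    tendsto_natCast_atTop_atTop.eventually_ge_atTop _
  obtain ⟨m, hm1, hm2, hm3, hm4⟩ :=
    (hBad.and (hVar.and (hlarge.and (eventually_ge_atTop 1)))).exists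
  have hmc : c ≤ (m : ℝ) := ((le_max_left _ _).trans (le_max_left _ _)).trans hm3
  have hmρ : 6 / ρ ≤ (m : ℝ) := ((le_max_right _ _).trans (le_max_left _ _)).trans hm3
  have hmC : 64 * C / (η * c1 ^ 2) ≤ (m : ℝ) := (le_max_right _ _).trans hm3
  have hm1R : (1 : ℝ) ≤ (m : ℝ) := by exact_mod_cast hm4
  have hm0R : (0 : ℝ) < (m : ℝ) := by linarith
  have hpow : ∀ k : ℕ, 1 ≤ k → (m : ℝ) ≤ (m : ℝ) ^ k := fun k hk =>
    le_self_pow₀ hm1R (by omega)
  have h6ρ : 6 ≤ ρ * (m : ℝ) := by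
    rw [div_le_iff₀ hρ] at hmρ; linarith
  have hJ : ρ * (m : ℝ) ^ 9 / 2 ≤ (nJ ρ m : ℝ) := by
    unfold nJ
    apply floor_half
    have := mul_le_mul_of_nonneg_left (hpow 9 (by norm_num)) hρ.le
    linarith
  have hI : ρ * (m : ℝ) ^ 5 / 6 ≤ (nI ρ m : ℝ) := by
    unfold nI
    have h1 : 2 ≤ ρ * (m : ℝ) ^ 5 / 3 := by
      have := mul_le_mul_of_nonneg_left (hpow 5 (by norm_num)) hρ.le
      linarith
    have := floor_half _ h1
    linarith
  obtain ⟨N, hNd⟩ : ∃ N : ℝ, N = ((nJ ρ m * nI ρ m : ℕ) : ℝ) := ⟨_, rfl⟩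
  have hNlow : ρ ^ 2 * (m : ℝ) ^ 14 / 12 ≤ N := by
    rw [hNd]
    push_cast
    calc ρ ^ 2 * (m : ℝ) ^ 14 / 12 = (ρ * (m : ℝ) ^ 9 / 2) * (ρ * (m : ℝ) ^ 5 / 6) := by ring
      _ ≤ (nJ ρ m : ℝ) * (nI ρ m : ℝ) := by
        apply mul_le_mul hJ hI (by positivity) (by positivity)
  have hkey : c1 * (m : ℝ) ^ 8 ≤ c / 2 * N / (m : ℝ) ^ 6 := by
    rw [le_div_iff₀ (by positivity)]
    have : c1 * (m : ℝ) ^ 8 * (m : ℝ) ^ 6 = c / 2 * (ρ ^ 2 * (m : ℝ) ^ 14 / 12) := by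
      rw [hc1]; ring
    rw [this]
    exact mul_le_mul_of_nonneg_left hNlow (by positivity)
  -- Chebyshev
  obtain ⟨Y, hY⟩ : ∃ Y : Ω → ℝ, Y = fun ω => stat (L ω) A x0 t0 ρ m := ⟨_, rfl⟩
  have hYm : Measurable Y := by rw [hY]; exact stat_meas hL A x0 t0 ρ m
  have hYL : MemLp Y 2 P := by
    refine MemLp.of_bound hYm.aestronglyMeasurable (nJ ρ m * (nI ρ m * A))
      (Eventually.of_forall fun ω => ?_)
    rw [hY, Real.norm_eq_abs]
    exact stat_bound A x0 t0 ρ m hA0.le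
  obtain ⟨e, he⟩ : ∃ e : ℝ, e = ∫ ω, Y ω ∂P := ⟨_, rfl⟩
  have hq : 0 < c1 * (m : ℝ) ^ 8 / 4 := by positivity
  have hcheb : P.real {ω | c1 * (m : ℝ) ^ 8 / 4 ≤ |Y ω - e|} ≤ η / 4 := by
    have h1 := meas_ge_le_variance_div_sq hYL hq
    rw [← he] at h1
    have h2 : P.real {ω | c1 * (m : ℝ) ^ 8 / 4 ≤ |Y ω - e|}
        ≤ Var[Y; P] / (c1 * (m : ℝ) ^ 8 / 4) ^ 2 :=
      ENNReal.toReal_le_of_le_ofReal
        (div_nonneg (variance_nonneg _ _) (by positivity)) h1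
    refine h2.trans ?_
    rw [div_le_iff₀ (by positivity)]
    rw [← hY] at hm2
    refine hm2.trans ?_
    rw [div_le_iff₀ (by positivity)] at hmC
    have h3 : η / 4 * (c1 * (m : ℝ) ^ 8 / 4) ^ 2 = (η * c1 ^ 2 * (m : ℝ) ^ 2) / 64 * (m : ℝ) ^ 14 := by
      ring
    rw [h3]
    apply mul_le_mul_of_nonneg_right _ (by positivity)
    have h4 : η * c1 ^ 2 * (m : ℝ) ≤ η * c1 ^ 2 * (m : ℝ) ^ 2 :=
      mul_le_mul_of_nonneg_left (hpow 2 (by norm_num)) (by positivity)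
    linarith
  have hbad : P.real {ω | κ * N < nBad (L ω) A H c a b x0 t0 ρ m} ≤ η / 4 := by
    have h1 := hN Ω P (fun ω => (L ω : R4 → ℝ)) A H c a b x0 t0 ρ (η * κ / 4) κ m hL.prob
      (by positivity) hκ0 hm1
    rw [hNd]
    refine h1.trans (le_of_eq ?_)
    field_simp
  refine ⟨A, e - c1 * (m : ℝ) ^ 8 / 2, m, hA0, hm4, ?_, ?_⟩
  · have h1 : {ω | stat (L ω) A x0 t0 ρ m < e - c1 * (m : ℝ) ^ 8 / 2}
        ⊆ {ω | c1 * (m : ℝ) ^ 8 / 4 ≤ |Y ω - e|} := by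
      intro ω hω
      rw [Set.mem_ofPred_eq] at hω ⊢
      have h2 : Y ω < e - c1 * (m : ℝ) ^ 8 / 2 := by rw [hY]; exact hω
      rw [abs_sub_comm]
      refine le_trans ?_ (le_abs_self _)
      linarith
    have h2 := measureReal_mono (μ := P) h1 (measure_ne_top _ _)
    linarith
  · have h1 : {ω | e - c1 * (m : ℝ) ^ 8 / 2 ≤ statE (shiftVal h (L ω)) A x0 t0 ρ m}
        ⊆ {ω | κ * N < nBad (L ω) A H c a b x0 t0 ρ m} ∪
          {ω | c1 * (m : ℝ) ^ 8 / 4 ≤ |Y ω - e|} := by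
      intro ω hω
      rw [Set.mem_ofPred_eq] at hω
      rw [Set.mem_union, Set.mem_ofPred_eq, Set.mem_ofPred_eq]
      by_cases hb : κ * N < nBad (L ω) A H c a b x0 t0 ρ m
      · exact Or.inl hb
      · right
        push Not at hb
        have h2 := hP h (L ω) A H c a b x0 t0 ρ m hh hH hH0 hc hax hxb hρ hA hm4
          (hmc.trans (hpow 6 (by norm_num))) hneg
        rw [← hNd] at h2
        have h3 : ((H + c) * (nBad (L ω) A H c a b x0 t0 ρ m : ℝ) - c * N) / (m : ℝ) ^ 6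
            ≤ -(c / 2 * N / (m : ℝ) ^ 6) := by
          rw [← neg_div]
          apply div_le_div_of_nonneg_right _ (by positivity)
          have h4 := mul_le_mul_of_nonneg_left hb hHc.le
          have h5 : (H + c) * (κ * N) = c / 2 * N := by rw [← mul_assoc, hκ2]
          rw [h5] at h4
          linarith
        have h6 : statE (shiftVal h (L ω)) A x0 t0 ρ m ≤ Y ω - c1 * (m : ℝ) ^ 8 := by
          rw [hY]
          simp only []
          linarith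
        refine le_trans ?_ (le_abs_self _)
        linarith
    have h2 := measureReal_mono (μ := P) h1 (measure_ne_top _ _)
    have h3 := measureReal_union_le (μ := P) {ω | κ * N < nBad (L ω) A H c a b x0 t0 ρ m}
      {ω | c1 * (m : ℝ) ^ 8 / 4 ≤ |Y ω - e|}
    linarith

end Pool.Agent.W605.DL.SEP
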